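import Pool.Agent.Box3.Final
set_option linter.all false
set_option autoImplicit false

/-!
# Common nets of three boxes with three free real parameters

For all real `r, w, X` with `0 < r`, `4 r < w`, `4 w + 6 r < X` and `X ≠ 18 w` there is one polygon
that folds into the three pairwise different boxes
`6r × (18w - 6r) × (3X - 6r)`, `(6w + 6r) × (12w - 6r) × (3X - 4w - 2r)` and
`6r × (X - 6r) × (54w - 6r)`.
-/

namespace Pool.Agent.Results.MP_98e56f_co.ThreeBoxesRealFamily

open Pool.Agent.Box3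

theorem result (r w X : ℝ) (hr : 0 < r) (hw : 4 * r < w) (hX : 4 * w + 6 * r < X)
    (hne : X ≠ 18 * w) :
    ∃ P : Set Pl, IsPolygon P ∧
      FoldsInto P (6 * r) (18 * w - 6 * r) (3 * X - 6 * r) ∧
      FoldsInto P (6 * w + 6 * r) (12 * w - 6 * r) (3 * X - 4 * w - 2 * r) ∧
      FoldsInto P (6 * r) (X - 6 * r) (54 * w - 6 * r) ∧
      ({6 * r, 18 * w - 6 * r, 3 * X - 6 * r} : Multiset ℝ) ≠
        {6 * w + 6 * r, 12 * w - 6 * r, 3 * X - 4 * w - 2 * r} ∧
      ({6 * r, 18 * w - 6 * r, 3 * X - 6 * r} : Multiset ℝ) ≠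
        {6 * r, X - 6 * r, 54 * w - 6 * r} ∧
      ({6 * w + 6 * r, 12 * w - 6 * r, 3 * X - 4 * w - 2 * r} : Multiset ℝ) ≠
        {6 * r, X - 6 * r, 54 * w - 6 * r} := by
  obtain ⟨P, h0, h1, h2, h3⟩ := exists_net r w X hr hw hX
  have hmem : ∀ b c : ℝ, ({6 * r, b, c} : Multiset ℝ) ≠
      {6 * w + 6 * r, 12 * w - 6 * r, 3 * X - 4 * w - 2 * r} := by
    intro b c h
    have hm : 6 * r ∈ ({6 * w + 6 * r, 12 * w - 6 * r, 3 * X - 4 * w - 2 * r} : Multiset ℝ) := by
      rw [← h]; simp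
    simp only [Multiset.insert_eq_cons, Multiset.mem_cons, Multiset.mem_singleton] at hm
    rcases hm with h | h | h <;> linarith
  refine ⟨P, h0, h1, h2, h3, hmem _ _, ?_, fun h => hmem _ _ h.symm⟩
  intro h
  have hs := congrArg Multiset.sum h
  simp only [Multiset.insert_eq_cons, Multiset.sum_cons, Multiset.sum_singleton] at hs
  exact hne (by linarith)

end Pool.Agent.Results.MP_98e56f_co.ThreeBoxesRealFamily
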